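import Pool.Agent.T6.H90.Upward.Example
import Pool.Agent.T6.H90.SL.K
import Pool.Agent.T6.H90.SL.A1
import Pool.Agent.T6.H90.SL.A2
import Pool.Agent.T6.H90.SL.B1
import Pool.Agent.T6.H90.SL.B2
import Pool.Agent.T6.H90.SL.B3
import Pool.Agent.T6.H90.SL.B4
import Pool.Agent.T6.H90.SL.C
import Pool.Agent.T6.H90.SL.D
import Pool.Agent.T6.H90.SL.E
import Pool.Agent.T6.H90.SL.F
import Pool.Agent.T6.H90.SL.G
import Pool.Agent.T6.H90.SL.H1
import Pool.Agent.T6.H90.SL.H
import Pool.Agent.T6.H90.SL.I1
import Pool.Agent.T6.H90.SL.I2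
import Pool.Agent.T6.H90.SL.I3
import Pool.Agent.T6.H90.SL.J

set_option autoImplicit false

/-!
# Poly-line upward planar drawings of bipartite DAGs: the area is quadratic

`A_p(n)`, the maximum over all upward planar bipartite DAGs with `n` vertices of the minimum area of
an upward planar poly-line grid drawing (bends at grid points), is of order `n²`: it lies between
`n² / 256` and `121032 n²` for all `n ≥ 22`. The lower bound comes from nested 4-cycles, which force
width and height at least `n / 16` in every poly-line drawing; the upper bound comes from the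
straight-line drawings of the starting result `StraightLineTheta` for Q1.
-/

namespace Pool.Agent.Results.MP_9caa86_co.PolyLineTheta

open Pool.Agent.T6.H90.Upward Pool.Agent.T6.H90.SL

/-- An upward planar drawing of the digraph `E` by arbitrary curves with increasing `y`-coordinate:
the vertex `v` is drawn at the point `(px v, py v)` and the edge `(u, v)` is the curve
`x = X u v y`, `py u ≤ y ≤ py v`, from the point of `u` to the point of `v`. -/
structure CurveDrawing {V : Type} (E : V → V → Prop) where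
  /-- the `x`-coordinates of the vertices -/
  px : V → ℝ
  /-- the `y`-coordinates of the vertices -/
  py : V → ℝ
  /-- the curve `x = X u v y` of the edge `(u, v)` -/
  X : V → V → ℝ → ℝ
  /-- the vertices are drawn at distinct points -/
  inj : ∀ u v, px u = px v → py u = py v → u = v
  up : ∀ u v, E u v → py u < py v
  cont : ∀ u v, E u v → ContinuousOn (X u v) (Set.Icc (py u) (py v))
  start : ∀ u v, E u v → X u v (py u) = px u
  stop : ∀ u v, E u v → X u v (py v) = px v
  /-- a vertex lies on an edge only if it is an end of the edge -/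
  vertex_not_on_edge : ∀ u v w, E u v → py w ∈ Set.Icc (py u) (py v) → X u v (py w) = px w →
    w = u ∨ w = v
  /-- two different edges meet only in common ends -/
  planar : ∀ u v x y t, E u v → E x y → (u, v) ≠ (x, y) → t ∈ Set.Icc (py u) (py v) →
    t ∈ Set.Icc (py x) (py y) → X u v t = X x y t →
    ∃ w, (w = u ∨ w = v) ∧ (w = x ∨ w = y) ∧ t = py w

theorem mono {V : Type} {E : V → V → Prop} (h : Nonempty (CurveDrawing E)) :
    Nonempty (Mono E) := by
  obtain ⟨D⟩ := h
  exact ⟨⟨D.px, D.py, D.X, D.inj, D.up, D.cont, D.start, D.stop, D.vertex_not_on_edge, D.planar⟩⟩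

theorem curveDrawing {V : Type} {E : V → V → Prop} (h : Nonempty (Mono E)) :
    Nonempty (CurveDrawing E) := by
  obtain ⟨D⟩ := h
  exact ⟨⟨D.px, D.py, D.X, D.inj, D.up, D.cont, D.X_src, D.X_tgt, D.vert, D.cross⟩⟩

/-- `A_p(n)`: the maximum over all bipartite DAGs with `n` vertices that have an upward planar
drawing (by arbitrary curves with increasing `y`-coordinate) of the minimum area of an upward planar
poly-line grid drawing. -/
noncomputable def maxPolyArea (n : ℕ) : ℝ :=
  sSup {A : ℝ | ∃ E : Fin n → Fin n → Prop, IsBipartiteDAG E ∧ Nonempty (CurveDrawing E) ∧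
    A = minPolyArea E}

/-- `A_p(n) = Θ(n²)`: `n² / 256 ≤ A_p(n) ≤ 121032 n²` for all `n ≥ 22`. -/
theorem result : ∀ n : ℕ, 22 ≤ n →
    (n : ℝ) ^ 2 / 256 ≤ maxPolyArea n ∧ maxPolyArea n ≤ 121032 * (n : ℝ) ^ 2 := by
  intro n hn
  have hfin : {A : ℝ | ∃ E : Fin n → Fin n → Prop, IsBipartiteDAG E ∧
      Nonempty (CurveDrawing E) ∧ A = minPolyArea E}.Finite := by
    refine (Set.finite_range (fun E : Fin n → Fin n → Prop => minPolyArea E)).subset ?_
    rintro A ⟨E, -, -, rfl⟩
    exact ⟨E, rfl⟩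
  have hmem : minPolyArea (EE (n / 4) n) ∈ {A : ℝ | ∃ E : Fin n → Fin n → Prop,
      IsBipartiteDAG E ∧ Nonempty (CurveDrawing E) ∧ A = minPolyArea E} :=
    ⟨EE (n / 4) n, bipartite _ _, curveDrawing (a1 _ _ ⟨drawing n⟩), rfl⟩
  constructor
  · have h1 : minPolyArea (EE (n / 4) n) ≤ maxPolyArea n := le_csSup hfin.bddAbove hmem
    have h2 := le_minPolyArea (nest n (by omega)) (by omega) ⟨drawing n⟩
    refine le_trans ?_ (h2.trans h1)
    have h3 : (n : ℝ) ≤ 4 * ((n / 4 : ℕ) : ℝ) + 3 := by
      have : n ≤ 4 * (n / 4) + 3 := by omega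
      exact_mod_cast this
    have h4 : (22 : ℝ) ≤ n := by exact_mod_cast hn
    have h5 : (n : ℝ) / 16 ≤ ((n / 4 : ℕ) : ℝ) / 2 - 1 := by linarith
    have h6 : (0 : ℝ) ≤ (n : ℝ) / 16 := by positivity
    calc (n : ℝ) ^ 2 / 256 = ((n : ℝ) / 16) ^ 2 := by ring
      _ ≤ (((n / 4 : ℕ) : ℝ) / 2 - 1) ^ 2 := pow_le_pow_left₀ h6 h5 2
  · refine csSup_le ⟨_, hmem⟩ ?_
    rintro A ⟨E, hE, hM, rfl⟩
    have : Nonempty (Fin n) := ⟨⟨0, by omega⟩⟩
    obtain ⟨D, -, h2⟩ := exists_drawing a2 (b4 b1 b2 b3) c d e (g f g1) (h h1) i1 i2 i3 j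
      (Fin n) E hE (mono hM)
    have h2' : D.FitsIn (246 * n) (492 * n) := by simpa using h2
    have h3 : minPolyArea E ≤ (246 * n : ℝ) * (492 * n) := by
      refine csInf_le ⟨0, ?_⟩ ⟨D, 246 * n, 492 * n, by positivity, by positivity, h2', rfl⟩
      rintro A ⟨D', W, H, hW, hH, -, rfl⟩
      exact mul_nonneg hW hH
    refine h3.trans (le_of_eq ?_)
    ring

end Pool.Agent.Results.MP_9caa86_co.PolyLineTheta
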